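import Pool.Agent.Helper74.DI.St

set_option autoImplicit false

namespace Pool.Agent.Helper60.DI

open Pool.Agent.Helper74 Pool.Agent.Helper74.DI

theorem hE1K : StE1K := by
  classical
  intro n R hT
  have row : ∀ x x0 y, R x y → R x0 y → ∀ z, R x z → R x0 z := by
    intro x x0 y hx hx0 z hz
    by_contra hn
    exact hT ⟨x0, x, y, z, hx0, hx, hz, hn⟩
  have hex : ∀ x, (∃ y, R x y) → ∃ m, ∃ h : m < n, R x ⟨m, h⟩ := by
    rintro x ⟨y, hy⟩
    exact ⟨y.1, y.2, hy⟩
  set r : Fin n → ℕ := fun x => if h : ∃ m, ∃ h : m < n, R x ⟨m, h⟩ then Nat.find h else 0 with hr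
  have hrs : ∀ x, (∃ y, R x y) → ∃ h : r x < n, R x ⟨r x, h⟩ := by
    intro x hx
    have h := hex x hx
    have e : r x = Nat.find h := by
      rw [hr]
      exact dif_pos h
    rw [e]
    exact Nat.find_spec h
  have hre : ∀ x x0, (∀ z, R x z ↔ R x0 z) → r x = r x0 := by
    intro x x0 h
    simp only [hr, h]
  refine ⟨r, fun y => if h : ∃ z, R z y then r h.choose else 0, ?_⟩
  intro x y hx hy
  have hy' : R hy.choose y := hy.choose_spec
  have e0 : (if h : ∃ z, R z y then r h.choose else 0) = r hy.choose := dif_pos hy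
  change R x y ↔ r x = (if h : ∃ z, R z y then r h.choose else 0)
  rw [e0]
  constructor
  · intro hxy
    exact hre _ _ fun z => ⟨row _ _ y hxy hy' z, row _ _ y hy' hxy z⟩
  · intro h
    obtain ⟨h1, h2⟩ := hrs x hx
    obtain ⟨h3, h4⟩ := hrs hy.choose ⟨y, hy'⟩
    have e : (⟨r x, h1⟩ : Fin n) = ⟨r hy.choose, h3⟩ := Fin.ext h
    rw [← e] at h4
    exact row _ _ _ h4 h2 y hy'

end Pool.Agent.Helper60.DI
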